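import Pool.Agent.H88.LV.Vanish

/-!
# Symplectic bases adapted to the levels
-/

open CategoryTheory AlgebraicGeometry Finset Function

set_option linter.unusedSectionVars false

universe u v w

namespace Pool.Agent.H88.LV

open Pool.Agent.H914 Pool.Agent.H914.VarClass Pool.Agent.H914.VarClass.Obj
  Pool.Agent.H914.WeilCohomology Pool.Agent.H281R3.HT Pool.Agent.W552 Pool.Agent.TH132.A
  Pool.Agent.TH125.Gal Pool.Agent.H88.FL

variable {k : Type u} [Field k] {𝒱 : VarClass k} {ops : CycleOps 𝒱}
  {W : WeilCohomology.{u, v} ops} {Z : Polarized 𝒱} {ι : Type} {P : ι → Polarized 𝒱}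

theorem isotropic (N : Levels W) (i : ι) {p q : ℚ → Prop}
    (hpq : ∀ a b, p a → q b → a + b ≠ 0) :
    ∀ x ∈ Submodule.span W.K (eig (N.opT (P i).X) ⊤ p),
      ∀ y ∈ Submodule.span W.K (eig (N.opT (P i).X) ⊤ q), bf W P i x y = 0 := by
  intro x hx
  induction hx using Submodule.span_induction with
  | mem x hx =>
    intro y hy
    induction hy using Submodule.span_induction with
    | mem y hy =>
      obtain ⟨-, a, ha, hxa⟩ := hx
      obtain ⟨-, b, hb, hyb⟩ := hy
      rw [FL.bf_apply]
      have h1 := N.tr_skew (x : W.H (P i).X) (y : W.H (P i).X)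
      have h2 : N.op _ (x : W.H (P i).X) = (a : W.K) • (x : W.H (P i).X) :=
        congrArg Subtype.val hxa
      have h3 : N.op _ (y : W.H (P i).X) = (b : W.K) • (y : W.H (P i).X) :=
        congrArg Subtype.val hyb
      rw [h2, h3, smul_mul_assoc, mul_smul_comm, map_smul, map_smul, smul_eq_mul,
        smul_eq_mul] at h1
      have h4 : ((a : W.K) + b) * W.tr (P i).X ((x : W.H (P i).X) * y) = 0 := by
        linear_combination h1
      refine (mul_eq_zero.1 h4).resolve_left fun h5 => hpq a b ha hb ?_
      exact_mod_cast h5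
    | zero => rw [map_zero]
    | add y z _ _ hy hz => rw [map_add, hy, hz, add_zero]
    | smul c y _ hy => rw [map_smul, hy, smul_zero]
  | zero => intro y _; rw [map_zero, LinearMap.zero_apply]
  | add x z _ _ hx hz =>
    intro y hy
    rw [map_add, LinearMap.add_apply, hx y hy, hz y hy, add_zero]
  | smul c x _ hx =>
    intro y hy
    rw [map_smul, LinearMap.smul_apply, hx y hy, smul_zero]

theorem exists_bases (N : Levels W) (S : Setting W Z P) {δ : ι → ℚ} (hδ : ∀ i, 0 < δ i)
    (hlev : ∀ i, EigAtLeast (N.op (P i).X) (transcendental W (P i).X) (δ i)) : ∃ (g : ι → ℕ)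
    (b : ∀ i, Module.Basis (Fin (g i) × Bool) W.K (transcendental W (P i).X)),
      (∀ i x y, bf W P i (b i x) (b i y) = sf W.K x y) ∧
      ∀ i a, b i (a, true) ∈ Submodule.span W.K (eig (N.opT (P i).X) ⊤ fun q => δ i ≤ q) := by
  have h1 : ∀ i, ∃ (m : ℕ) (b : Module.Basis (Fin m × Bool) W.K (transcendental W (P i).X)),
      (∀ x y, bf W P i (b x) (b y) = sf W.K x y) ∧
      ∀ a, b (a, true) ∈ Submodule.span W.K (eig (N.opT (P i).X) ⊤ fun q => δ i ≤ q) := by
    intro i
    refine exists_adapted (S.bf_skew i) (S.bf_nondeg i)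
      (q := Submodule.span W.K (eig (N.opT (P i).X) ⊤ fun q => q ≤ -δ i))
      (isotropic N i fun a b ha hb h => ?_) (isotropic N i fun a b ha hb h => ?_) ?_
    · have := hδ i; linarith
    · have := hδ i; linarith
    · intro x
      have h2 := N.spanned (P i).X (P i).X.dim (x : W.H (P i).X) (S.mid i x.2)
      have h3 := mem_span_eig (f := N.op (P i).X) (p := W.gr (P i).X (P i).X.dim)
        (p' := transcendental W (P i).X) (fun x hx => N.op_trans hx)
        (P := fun q => |q| ≤ ((P i).X.dim : ℚ)) h2 x.2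
      obtain ⟨s, y, hy, hxy⟩ := decomp h3
      have h4 : x ∈ Submodule.span W.K (eig (N.opT (P i).X) ⊤ fun q => δ i ≤ q) ⊔
          Submodule.span W.K (eig (N.opT (P i).X) ⊤ fun q => q ≤ -δ i) := by
        have h5 : x = ∑ q ∈ s.attach, (⟨y q, (hy q q.2).2.1.2⟩ : transcendental W (P i).X) := by
          apply Subtype.ext
          rw [hxy, Submodule.coe_sum, ← Finset.sum_attach]
        rw [h5]
        refine Submodule.sum_mem _ fun q _ => ?_
        obtain ⟨-, hyg, hyq⟩ := hy q q.2
        by_cases h0 : y q = 0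
        · have h6 : (⟨y q, (hy q q.2).2.1.2⟩ : transcendental W (P i).X) = 0 := Subtype.ext h0
          rw [h6]
          exact Submodule.zero_mem _
        · rcases le_abs.1 (hlev i _ hyg.2 h0 q hyq) with h7 | h7
          · exact Submodule.mem_sup_left (Submodule.subset_span
              ⟨Submodule.mem_top, q, h7, Subtype.ext hyq⟩)
          · exact Submodule.mem_sup_right (Submodule.subset_span
              ⟨Submodule.mem_top, q, by linarith, Subtype.ext hyq⟩)
      obtain ⟨y1, h6, y2, h7, h8⟩ := Submodule.mem_sup.1 h4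
      exact ⟨y1, h6, y2, h7, h8.symm⟩
  choose g b hb using h1
  exact ⟨g, b, fun i => (hb i).1, fun i => (hb i).2⟩

end Pool.Agent.H88.LV
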