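import Pool.Agent.H88.FL.Symp

/-!
# Eigenvectors with rational eigenvalues, and symplectic bases adapted to Lagrangian subspaces
-/

open Finset Function

set_option linter.unusedSectionVars false

namespace Pool.Agent.H88.LV

open Pool.Agent.H88.FL

universe u v

variable {K : Type u} [Field K] [CharZero K] {V : Type v} [AddCommGroup V] [Module K V]

/-- the eigenvectors in `p` with rational eigenvalues which satisfy `P` -/
def eig (f : V →ₗ[K] V) (p : Submodule K V) (P : ℚ → Prop) : Set V :=
  {y | y ∈ p ∧ ∃ q : ℚ, P q ∧ f y = (q : K) • y}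

theorem decomp {f : V →ₗ[K] V} {p : Submodule K V} {P : ℚ → Prop} {x : V}
    (hx : x ∈ Submodule.span K (eig f p P)) :
    ∃ (s : Finset ℚ) (y : ℚ → V), (∀ q ∈ s, P q ∧ y q ∈ p ∧ f (y q) = (q : K) • y q) ∧
      x = ∑ q ∈ s, y q := by
  classical
  induction hx using Submodule.span_induction with
  | mem x hx =>
    obtain ⟨h1, q, h2, h3⟩ := hx
    exact ⟨{q}, fun _ => x, by
      intro q' hq'
      rw [Finset.mem_singleton] at hq'
      subst hq'
      exact ⟨h2, h1, h3⟩, by rw [Finset.sum_singleton]⟩
  | zero => exact ⟨∅, fun _ => 0, by simp, by simp⟩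
  | add x x' _ _ hx hx' =>
    obtain ⟨s, y, h1, h2⟩ := hx
    obtain ⟨s', y', h1', h2'⟩ := hx'
    refine ⟨s ∪ s', fun q => (if q ∈ s then y q else 0) + if q ∈ s' then y' q else 0, ?_, ?_⟩
    · intro q hq
      rw [Finset.mem_union] at hq
      refine ⟨?_, ?_, ?_⟩
      · rcases hq with h | h
        · exact (h1 q h).1
        · exact (h1' q h).1
      · refine Submodule.add_mem _ ?_ ?_
        · split_ifs with h
          · exact (h1 q h).2.1
          · exact Submodule.zero_mem _
        · split_ifs with h
          · exact (h1' q h).2.1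
          · exact Submodule.zero_mem _
      · rw [map_add, smul_add]
        congr 1
        · split_ifs with h
          · exact (h1 q h).2.2
          · simp
        · split_ifs with h
          · exact (h1' q h).2.2
          · simp
    · rw [Finset.sum_add_distrib, ← Finset.sum_filter, ← Finset.sum_filter, h2, h2']
      congr 1
      · refine Finset.sum_congr ?_ fun _ _ => rfl
        ext q
        simp only [Finset.mem_filter, Finset.mem_union]
        tauto
      · refine Finset.sum_congr ?_ fun _ _ => rfl
        ext q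
        simp only [Finset.mem_filter, Finset.mem_union]
        tauto
  | smul c x _ hx =>
    obtain ⟨s, y, h1, h2⟩ := hx
    refine ⟨s, fun q => c • y q, fun q hq => ⟨(h1 q hq).1, Submodule.smul_mem _ _ (h1 q hq).2.1, ?_⟩,
      ?_⟩
    · rw [map_smul, (h1 q hq).2.2, smul_comm]
    · rw [h2, Finset.smul_sum]

/-- the components of an element of a stable subspace are in the subspace -/
theorem comp_mem {f : V →ₗ[K] V} {p : Submodule K V} (hp : ∀ x ∈ p, f x ∈ p) (s : Finset ℚ) :
    ∀ (y : ℚ → V), (∀ q ∈ s, f (y q) = (q : K) • y q) → ∑ q ∈ s, y q ∈ p → ∀ q ∈ s, y q ∈ p := by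
  classical
  induction s using Finset.induction_on with
  | empty => intro y _ _ q hq; exact absurd hq (Finset.notMem_empty q)
  | insert a s ha ih =>
    intro y hy hsum
    rw [Finset.sum_insert ha] at hsum
    have h1 : ∑ q ∈ s, (((q : K) - (a : K)) • y q) ∈ p := by
      have h2 : f (y a + ∑ q ∈ s, y q) - (a : K) • (y a + ∑ q ∈ s, y q) =
          ∑ q ∈ s, (((q : K) - (a : K)) • y q) := by
        rw [map_add, hy a (Finset.mem_insert_self _ _), map_sum, smul_add, Finset.smul_sum,
          add_sub_add_left_eq_sub, ← Finset.sum_sub_distrib]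
        refine Finset.sum_congr rfl fun q hq => ?_
        rw [hy q (Finset.mem_insert_of_mem hq), sub_smul]
      rw [← h2]
      exact Submodule.sub_mem _ (hp _ hsum) (Submodule.smul_mem _ _ hsum)
    have h2 : ∀ q ∈ s, y q ∈ p := by
      intro q hq
      have h3 := ih (fun q => ((q : K) - (a : K)) • y q) (fun q hq => by
        rw [map_smul, hy q (Finset.mem_insert_of_mem hq), smul_comm]) h1 q hq
      have h4 : ((q : K) - (a : K)) ≠ 0 := by
        rw [sub_ne_zero]
        intro h
        apply ha
        have : q = a := by exact_mod_cast h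
        rwa [← this]
      have h5 := Submodule.smul_mem p (((q : K) - (a : K))⁻¹) h3
      rwa [smul_smul, inv_mul_cancel₀ h4, one_smul] at h5
    intro q hq
    rcases Finset.mem_insert.1 hq with rfl | hq
    · have h3 := Submodule.sub_mem _ hsum (Submodule.sum_mem p h2)
      rwa [add_sub_cancel_right] at h3
    · exact h2 q hq

/-- eigenvectors in a stable subspace -/
theorem mem_span_eig {f : V →ₗ[K] V} {p p' : Submodule K V} (hp : ∀ x ∈ p', f x ∈ p')
    {P : ℚ → Prop} {x : V} (hx : x ∈ Submodule.span K (eig f p P)) (hx' : x ∈ p') :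
    x ∈ Submodule.span K (eig f (p ⊓ p') P) := by
  obtain ⟨s, y, h1, rfl⟩ := decomp hx
  have h2 := comp_mem hp s y (fun q hq => (h1 q hq).2.2) hx'
  exact Submodule.sum_mem _ fun q hq => Submodule.subset_span
    ⟨⟨(h1 q hq).2.1, h2 q hq⟩, q, (h1 q hq).1, (h1 q hq).2.2⟩

/-- the eigenvalues -/
theorem eigenvalue_of_mem {f : V →ₗ[K] V} {p : Submodule K V} {P : ℚ → Prop} {x : V}
    (hx : x ∈ Submodule.span K (eig f p P)) (h0 : x ≠ 0) {q : ℚ} (hq : f x = (q : K) • x) :
    P q := by
  classical
  obtain ⟨s, y, h1, h2⟩ := decomp hx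
  by_cases h : q ∈ s
  · exact (h1 q h).1
  exfalso
  have h3 := comp_mem (f := f) (p := ⊥) (fun x hx => by
    rw [(Submodule.mem_bot K).1 hx, map_zero]; exact Submodule.zero_mem _) (insert q s)
    (fun q' => if q' = q then -x else y q') (fun q' hq' => by
      by_cases h4 : q' = q
      · rw [if_pos h4, map_neg, hq, smul_neg, h4]
      · rw [if_neg h4]
        exact (h1 q' ((Finset.mem_insert.1 hq').resolve_left h4)).2.2) (by
      rw [Finset.sum_insert h, if_pos rfl, Finset.sum_congr rfl fun q' hq' => if_neg (by
        rintro rfl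
        exact h hq'), ← h2, neg_add_cancel]
      exact Submodule.zero_mem _) q (Finset.mem_insert_self _ _)
  rw [if_pos rfl, Submodule.mem_bot, neg_eq_zero] at h3
  exact h0 h3

section basis

variable [Module.Finite K V] {B : V →ₗ[K] V →ₗ[K] K}

/-- **Symplectic bases adapted to two complementary Lagrangian subspaces.** -/
theorem exists_adapted (hsk : ∀ x y, B x y = -B y x) (hnd : ∀ x, (∀ y, B x y = 0) → x = 0)
    {p q : Submodule K V} (hp : ∀ x ∈ p, ∀ y ∈ p, B x y = 0) (hq : ∀ x ∈ q, ∀ y ∈ q, B x y = 0)
    (hpq : ∀ x, ∃ y ∈ p, ∃ z ∈ q, x = y + z) :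
    ∃ (m : ℕ) (b : Module.Basis (Fin m × Bool) K V), (∀ x y, B (b x) (b y) = sf K x y) ∧
      ∀ a, b (a, true) ∈ p := by
  classical
  have hdis : ∀ x ∈ p, x ∈ q → x = 0 := by
    intro x hx hx'
    apply hnd
    intro y
    obtain ⟨y1, h1, y2, h2, rfl⟩ := hpq y
    rw [map_add, hp x hx y1 h1, hq x hx' y2 h2, add_zero]
  -- a basis of `p`
  set e := Module.finBasis K p with he
  set g := Module.finrank K p with hg
  -- the dual vectors
  have hsurj : Function.Surjective B.flip := by
    have hinj : Function.Injective B.flip := by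
      rw [← LinearMap.ker_eq_bot, LinearMap.ker_eq_bot']
      intro x hx
      apply hnd
      intro y
      have h1 := congrArg (fun l => l y) hx
      rw [LinearMap.flip_apply, LinearMap.zero_apply] at h1
      rw [hsk, h1, neg_zero]
    exact (LinearMap.injective_iff_surjective_of_finrank_eq_finrank
      (Subspace.dual_finrank_eq).symm).1 hinj
  have hex : ∀ a : Fin g, ∃ f ∈ q, ∀ b, B (e b : V) f = if b = a then 1 else 0 := by
    intro a
    obtain ⟨φ, hφ⟩ := LinearMap.exists_extend (e.coord a)
    obtain ⟨f, hf⟩ := hsurj φ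
    obtain ⟨y, hy, z, hz, rfl⟩ := hpq f
    refine ⟨z, hz, fun b => ?_⟩
    have h1 := congrArg (fun l => l (e b : V)) hf
    rw [LinearMap.flip_apply, map_add, hp _ (e b).2 y hy, zero_add] at h1
    rw [h1]
    have h2 := congrArg (fun l => l (e b)) hφ
    change φ (e b : V) = e.coord a (e b) at h2
    rw [h2, Module.Basis.coord_apply, Module.Basis.repr_self, Finsupp.single_apply]
  choose f hfq hf using hex
  set w : Fin g × Bool → V := fun x => if x.2 then (e x.1 : V) else f x.1 with hw
  have hgram : ∀ x y, B (w x) (w y) = sf K x y := by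
    rintro ⟨a, s⟩ ⟨a', s'⟩
    cases s <;> cases s'
    · rw [sf_same]
      exact hq _ (hfq a) _ (hfq a')
    · rw [sf_false_true, hw]
      simp only [Bool.false_eq_true, if_false, if_true]
      rw [hsk, hf]
      by_cases h : a = a'
      · rw [if_pos h, if_pos h.symm]
      · rw [if_neg h, if_neg (Ne.symm h), neg_zero]
    · rw [sf_true_false, hw]
      simp only [Bool.false_eq_true, if_false, if_true]
      rw [hf]
    · rw [sf_same]
      exact hp _ (e a).2 _ (e a').2
  have hspan : ⊤ ≤ Submodule.span K (Set.range w) := by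
    intro x _
    obtain ⟨y, hy, z, hz, rfl⟩ := hpq x
    refine Submodule.add_mem _ ?_ ?_
    · have h1 : (⟨y, hy⟩ : p) = ∑ a, e.repr ⟨y, hy⟩ a • e a := (e.sum_repr _).symm
      have h2 := congrArg Subtype.val h1
      rw [Submodule.coe_sum] at h2
      change y = _ at h2
      rw [h2]
      exact Submodule.sum_mem _ fun a _ => Submodule.smul_mem _ _
        (Submodule.subset_span ⟨(a, true), rfl⟩)
    · have h1 : z = ∑ a, B (e a : V) z • f a := by
        rw [← sub_eq_zero]
        apply hnd
        intro y
        obtain ⟨y1, h1, y2, h2, rfl⟩ := hpq y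
        have h3 : z - ∑ a, B (e a : V) z • f a ∈ q :=
          Submodule.sub_mem _ hz (Submodule.sum_mem _ fun a _ => Submodule.smul_mem _ _ (hfq a))
        rw [map_add, hq _ h3 y2 h2, add_zero, hsk, neg_eq_zero]
        have h4 : ∀ y ∈ p, B y (z - ∑ a, B (e a : V) z • f a) = 0 := by
          intro y hy
          have h5 : (⟨y, hy⟩ : p) = ∑ a, e.repr ⟨y, hy⟩ a • e a := (e.sum_repr _).symm
          have h6 := congrArg Subtype.val h5
          rw [Submodule.coe_sum] at h6
          change y = _ at h6
          rw [h6, map_sum, LinearMap.sum_apply]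
          refine Finset.sum_eq_zero fun a _ => ?_
          rw [Submodule.coe_smul, map_smul, LinearMap.smul_apply, map_sub, map_sum]
          rw [Finset.sum_eq_single a]
          · rw [map_smul, hf, if_pos rfl]
            simp
          · intro b _ hb
            rw [map_smul, hf, if_neg (Ne.symm hb), smul_zero]
          · intro h
            exact absurd (Finset.mem_univ _) h
        exact h4 y1 h1
      rw [h1]
      exact Submodule.sum_mem _ fun a _ => Submodule.smul_mem _ _
        (Submodule.subset_span ⟨(a, false), rfl⟩)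
  refine ⟨g, Module.Basis.mk (li_of_gram hgram) hspan, fun x y => ?_, fun a => ?_⟩
  · rw [Module.Basis.mk_apply, Module.Basis.mk_apply, hgram]
  · rw [Module.Basis.mk_apply]
    exact (e a).2

end basis

end Pool.Agent.H88.LV
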