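import Pool.Agent.H88.LV.Defs
import Pool.Agent.H88.LV.Lin
import Pool.Agent.H88.FL.StepA
import Pool.Agent.H88.GP.Act

/-!
# Levels on the cohomology: first properties
-/

open CategoryTheory AlgebraicGeometry Finset Function

set_option linter.unusedSectionVars false

universe u v w

namespace Pool.Agent.H88.LV

open Pool.Agent.H914 Pool.Agent.H914.VarClass Pool.Agent.H914.VarClass.Obj
  Pool.Agent.H914.WeilCohomology Pool.Agent.H281R3.HT Pool.Agent.W552 Pool.Agent.TH132.A
  Pool.Agent.TH125.Gal Pool.Agent.H88.FL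

variable {k : Type u} [Field k] {𝒱 : VarClass k} {ops : CycleOps 𝒱}
  {W : WeilCohomology.{u, v} ops} {X Y : 𝒱.Obj}

namespace Levels

variable (N : Levels W)

theorem op_mul (X : 𝒱.Obj) (x y : W.H X) : N.op X (x * y) = N.op X x * y + x * N.op X y :=
  (N.levelOp X).mul x y

theorem op_map {X Y : 𝒱.Obj} (f : X ⟶ Y) (y : W.H Y) :
    N.op X (W.map f y) = W.map f (N.op Y y) := N.compat X Y f y

theorem op_cl {X : 𝒱.Obj} {i : ℕ} {z : X.Cycles} (hz : X.IsCyc i z) :
    N.op X (W.cl X z) = 0 := N.kills X i ⟨z, hz, rfl⟩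

theorem tr_op (X : 𝒱.Obj) (x : W.H X) : W.tr X (N.op X x) = 0 := (N.levelOp X).trace x

theorem spanned (X : 𝒱.Obj) (i : ℕ) : ∀ x ∈ W.gr X i,
    x ∈ Submodule.span W.K {y | y ∈ W.gr X i ∧
      ∃ q : ℚ, |q| ≤ (i : ℚ) ∧ N.op X y = (q : W.K) • y} := (N.levelOp X).spanned i

theorem op_AS {x : W.H X} (hx : AS W X x) : N.op X x = 0 := by
  refine AS.ind (p := fun x => N.op X x = 0) ?_ (fun x y hx hy => by rw [map_add, hx, hy, add_zero])
    hx
  rintro j _ ⟨z, hz, rfl⟩
  exact N.op_cl hz

theorem op_one : N.op X 1 = 0 := N.op_AS AS.one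

theorem op_gr {i : ℕ} {x : W.H X} (hx : x ∈ W.gr X i) : N.op X x ∈ W.gr X i := by
  have h1 := N.spanned X i x hx
  clear hx
  induction h1 using Submodule.span_induction with
  | mem x hx =>
    obtain ⟨h1, q, _, h2⟩ := hx
    rw [h2]
    exact Submodule.smul_mem _ _ h1
  | zero => rw [map_zero]; exact Submodule.zero_mem _
  | add x y _ _ hx hy => rw [map_add]; exact Submodule.add_mem _ hx hy
  | smul c x _ hx => rw [map_smul]; exact Submodule.smul_mem _ _ hx

theorem op_wt (x : W.H X) : wt (W.isInternal X) X.dim (N.op X x) =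
    N.op X (wt (W.isInternal X) X.dim x) := by
  refine gr_induction (W.isInternal X) (p := fun x => wt (W.isInternal X) X.dim (N.op X x) =
    N.op X (wt (W.isInternal X) X.dim x)) ?_ ?_ x
  · intro i a ha
    rw [wt, scal_apply _ _ (N.op_gr ha), scal_apply _ _ ha, map_smul]
  · intro a b ha hb
    rw [map_add, map_add, ha, hb, map_add, map_add]

theorem op_push (f : X ⟶ Y) (x : W.H X) : N.op Y (W.push f x) = W.push f (N.op X x) := by
  apply W.tr_ext
  intro z
  have h1 := N.tr_op Y (W.push f x * z)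
  rw [N.op_mul, map_add, W.tr_push, ← N.op_map] at h1
  have h2 := N.tr_op X (x * W.map f z)
  rw [N.op_mul, map_add, ← W.tr_push] at h2
  linear_combination h1 - h2

theorem op_trans {t : W.H X} (ht : t ∈ transcendental W X) : N.op X t ∈ transcendental W X := by
  apply trans_of_AS
  intro c hc
  have h1 := N.tr_op X (t * c)
  rw [N.op_mul, N.op_AS hc, mul_zero, add_zero] at h1
  exact h1

theorem tr_skew (x y : W.H X) : W.tr X (N.op X x * y) = -W.tr X (x * N.op X y) := by
  have h1 := N.tr_op X (x * y)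
  rw [N.op_mul, map_add] at h1
  exact eq_neg_of_add_eq_zero_left h1

/-- the operator commutes with the lowering operator -/
theorem op_low {D : X.Cycles} (hD : X.IsCyc 1 D) {f : Module.End W.K (W.H X)}
    (tf : Low W X D f) (x : W.H X) : N.op X (f x) = f (N.op X x) := by
  set d : Module.End W.K (W.H X) := N.op X with hd
  have hdh : wt (W.isInternal X) X.dim * d = d * wt (W.isInternal X) X.dim := by
    apply LinearMap.ext
    intro x
    exact N.op_wt x
  have hde : d * LinearMap.mulLeft W.K (W.cl X D) - LinearMap.mulLeft W.K (W.cl X D) * d =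
      (0 : W.K) • LinearMap.mulLeft W.K (W.cl X D) := by
    apply LinearMap.ext
    intro x
    have h1 : d (W.cl X D * x) = d (W.cl X D) * x + W.cl X D * d x := N.op_mul X _ _
    have h2 : d (W.cl X D) = 0 := N.op_cl hD
    rw [LinearMap.sub_apply, Module.End.mul_apply, Module.End.mul_apply, LinearMap.smul_apply,
      LinearMap.mulLeft_apply, LinearMap.mulLeft_apply, h1, h2, zero_mul, zero_add, sub_self,
      zero_smul]
  have h1 : Low W X D (f + (d * f - f * d + (0 : W.K) • f)) := GP.sl2_der tf hdh hde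
  have h2 : f = f + (d * f - f * d + (0 : W.K) • f) := sl2_unique tf h1
  have h3 : d * f - f * d + (0 : W.K) • f = 0 := by
    have h4 : f + 0 = f + (d * f - f * d + (0 : W.K) • f) := by rw [add_zero]; exact h2
    exact (add_left_cancel h4).symm
  rw [zero_smul, add_zero] at h3
  exact sub_eq_zero.1 (congrArg (fun u => u x) h3)

/-- the operator on the transcendental part -/
noncomputable def opT (X : 𝒱.Obj) : transcendental W X →ₗ[W.K] transcendental W X :=
  (N.op X).restrict fun _ ht => N.op_trans ht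

theorem opT_apply (t : transcendental W X) : (N.opT X t : W.H X) = N.op X t := rfl

/-- levels are at most the degree -/
theorem abs_le {i : ℕ} {x : W.H X} (hx : x ∈ W.gr X i) (h0 : x ≠ 0) {q : ℚ}
    (hq : N.op X x = (q : W.K) • x) : |q| ≤ (i : ℚ) :=
  eigenvalue_of_mem (P := fun q => |q| ≤ (i : ℚ)) (N.spanned X i x hx) h0 hq

theorem hasEig_le {e : ℕ} {t : ℚ} (h : HasEig (N.op X) (W.gr X e) t) : t ≤ (e : ℚ) := by
  obtain ⟨q, hq, x, hx, h0, h1⟩ := h
  exact hq.trans ((le_abs_self q).trans (N.abs_le hx h0 h1))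

end Levels

section forms

variable {Z : Polarized 𝒱} {ι : Type} {P : ι → Polarized 𝒱} {n : ℕ} {c : Fin n → ι}

theorem op_lp (N : Levels W) {n : ℕ} : ∀ {Q : Fin n → Polarized 𝒱} (x : ∀ s, W.H (Q s).X),
    N.op (VV ops Z n Q) (FL.lp W Z x) = ∑ s, FL.lp W Z (update x s (N.op (Q s).X (x s))) := by
  induction n with
  | zero =>
    intro Q x
    rw [Fin.sum_univ_zero]
    exact N.op_one
  | succ n ih =>
    intro Q x
    have h1 : N.op (VV ops Z (n + 1) Q) (FL.lp W Z x) =
        W.map (fst (Q 0).X (VV ops Z n fun t => Q t.succ))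
        (N.op _ (x 0)) * W.map (snd (Q 0).X (VV ops Z n fun t => Q t.succ))
          (FL.lp W Z fun t => x t.succ) +
        W.map (fst (Q 0).X (VV ops Z n fun t => Q t.succ)) (x 0) *
          W.map (snd (Q 0).X (VV ops Z n fun t => Q t.succ))
            (N.op _ (FL.lp W Z fun t => x t.succ)) := by
      have h2 : N.op (VV ops Z (n + 1) Q) (FL.lp W Z x) =
          N.op ((Q 0).X.prod (VV ops Z n fun t => Q t.succ))
          (W.map (fst (Q 0).X (VV ops Z n fun t => Q t.succ)) (x 0) *
            W.map (snd (Q 0).X (VV ops Z n fun t => Q t.succ))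
              (FL.lp W Z fun t => x t.succ)) :=
        congrArg (N.op ((Q 0).X.prod (VV ops Z n fun t => Q t.succ))) (lp_succ x)
      rw [h2, N.op_mul, N.op_map, N.op_map]
    rw [h1, ih, Fin.sum_univ_succ, map_sum, Finset.mul_sum]
    refine congrArg₂ (· + ·) ?_ (Finset.sum_congr rfl fun s _ => ?_)
    · rw [lp_succ, update_self]
      congr 2
    · rw [lp_succ]
      have e1 : update x s.succ (N.op _ (x s.succ)) 0 = x 0 :=
        update_of_ne (Fin.succ_ne_zero s).symm _ _
      have e2 : (fun t : Fin n => update x s.succ (N.op _ (x s.succ)) t.succ) =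
          update (fun t : Fin n => x t.succ) s (N.op _ (x s.succ)) := by
        funext t
        by_cases ht : t = s
        · subst ht
          rw [update_self, update_self]
        · rw [update_of_ne ht, update_of_ne fun h => ht (Fin.succ_injective _ h)]
      rw [e1, e2]

theorem ev_update (N : Levels W) (v : Fin n → ∀ i, transcendental W (P i).X) (s : Fin n) :
    FL.ev c (update v s fun i => N.opT (P i).X (v s i)) =
      update (FL.ev c v) s (N.op _ (FL.ev c v s)) := by
  funext t
  by_cases ht : t = s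
  · subst ht
    rw [FL.ev, update_self, update_self]
    rfl
  · rw [FL.ev, update_of_ne ht, update_of_ne ht]
    rfl

/-- The multilinear map is compatible with the operator. -/
def LEqv (N : Levels W) (Φ : MultilinearMap W.K
    (fun _ : Fin n => ∀ i, transcendental W (P i).X) (W.H Z.X)) : Prop :=
  ∀ v, N.op Z.X (Φ v) = ∑ s, Φ (update v s fun i => N.opT (P i).X (v s i))

theorem LEqv.comp {N : Levels W} {Φ : MultilinearMap W.K
    (fun _ : Fin n => ∀ i, transcendental W (P i).X) (W.H Z.X)} (h : LEqv N Φ)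
    {u : Module.End W.K (W.H Z.X)} (hu : ∀ x, N.op Z.X (u x) = u (N.op Z.X x)) :
    LEqv N (u.compMultilinearMap Φ) := by
  intro v
  rw [LinearMap.compMultilinearMap_apply, hu, h v, map_sum]
  rfl

theorem LEqv.low_pow {N : Levels W} {D : Z.X.Cycles} (hD : Z.X.IsCyc 1 D)
    {f : Module.End W.K (W.H Z.X)} (tf : Low W Z.X D f) {Φ : MultilinearMap W.K
    (fun _ : Fin n => ∀ i, transcendental W (P i).X) (W.H Z.X)} (h : LEqv N Φ) (m : ℕ) :
    LEqv N ((f ^ m).compMultilinearMap Φ) := by
  refine h.comp ?_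
  induction m with
  | zero => intro x; rfl
  | succ m ih =>
    intro x
    rw [pow_succ', Module.End.mul_apply, N.op_low hD tf, ih, Module.End.mul_apply]

theorem FF_leqv (N : Levels W) {h : W.H (VV ops Z n fun s => P (c s))} (hh : N.op _ h = 0) :
    LEqv N (FF c h) := by
  intro v
  rw [FF_apply, N.op_push, N.op_mul, hh, zero_mul, zero_add, op_lp, Finset.mul_sum, map_sum]
  refine Finset.sum_congr rfl fun s _ => ?_
  rw [FF_apply, ev_update]

end forms

end Pool.Agent.H88.LV
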