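import Pool.Agent.H88.FL.PDefs2

/-!
# Levels on the cohomology: definitions
-/

open CategoryTheory AlgebraicGeometry

universe u v w

namespace Pool.Agent.H88.LV

open Pool.Agent.H914 Pool.Agent.H914.VarClass Pool.Agent.H914.VarClass.Obj
  Pool.Agent.H914.WeilCohomology Pool.Agent.TH125.Gal Pool.Agent.H88.FL

/-- The operator `op` is a derivation of the algebra `A`, its composition with the trace `tr`
vanishes, and `gr i` is spanned by eigenvectors in `gr i` with eigenvalues which are rational
numbers between `-i` and `i`. -/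
structure IsLevelOp {K : Type v} [Field K] {A : Type w} [Ring A] [Algebra K A]
    (gr : ℕ → Submodule K A) (tr : A →ₗ[K] K) (op : A →ₗ[K] A) : Prop where
  mul : ∀ x y : A, op (x * y) = op x * y + x * op y
  trace : ∀ x : A, tr (op x) = 0
  spanned : ∀ i : ℕ, ∀ x ∈ gr i, x ∈ Submodule.span K {y | y ∈ gr i ∧
    ∃ q : ℚ, |q| ≤ (i : ℚ) ∧ op y = (q : K) • y}

/-- compatibility of operators with an algebra homomorphism -/
def Compat {K : Type v} [Field K] {A B : Type w} [Ring A] [Algebra K A] [Ring B] [Algebra K B]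
    (f : B →ₐ[K] A) (a : A →ₗ[K] A) (b : B →ₗ[K] B) : Prop := ∀ y : B, a (f y) = f (b y)

variable {k : Type u} [Field k] {𝒱 : VarClass k} {ops : CycleOps 𝒱}

/-- Levels on a Weil cohomology: the operators `op X` on `H(X)` have the properties `IsLevelOp`,
they are compatible with pull-backs and zero on the classes of algebraic cycles. The eigenvalues are
called levels.

Intended uses: `op X` is multiplication by `p - q` on `H^{p,q}(X)` (over the complex numbers), or
multiplication by `2 s - i` on the part of slope `s` of `H^i(X)` (crystalline cohomology). -/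
structure Levels (W : WeilCohomology.{u, v} ops) where
  /-- the operator -/
  op : ∀ X : 𝒱.Obj, W.H X →ₗ[W.K] W.H X
  levelOp : ∀ X : 𝒱.Obj, IsLevelOp (W.gr X) (W.tr X) (op X)
  compat : ∀ (X Y : 𝒱.Obj) (f : X ⟶ Y), Compat (W.map f) (op X) (op Y)
  kills : ∀ (X : 𝒱.Obj) (i : ℕ), algClasses W X i ⊆ LinearMap.ker (op X)

/-- The eigenvectors of `op` in `V` have rational eigenvalues of absolute value at least `t` only. -/
def EigAtLeast {K : Type v} [Field K] {A : Type w} [AddCommGroup A] [Module K A]
    (op : A →ₗ[K] A) (V : Submodule K A) (t : ℚ) : Prop :=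
  ∀ x ∈ V, x ≠ 0 → ∀ q : ℚ, op x = (q : K) • x → t ≤ |q|

/-- There is an eigenvector of `op` in `V` with a rational eigenvalue which is at least `t`. -/
def HasEig {K : Type v} [Field K] {A : Type w} [AddCommGroup A] [Module K A]
    (op : A →ₗ[K] A) (V : Submodule K A) (t : ℚ) : Prop :=
  ∃ q : ℚ, t ≤ q ∧ ∃ x ∈ V, x ≠ 0 ∧ op x = (q : K) • x

variable {Γ : Type w} [Group Γ]

/-- A family of varieties of odd dimension with big monodromy, such that the levels which occur in
the transcendental cohomology of `X i` have absolute value at least `δ i > 0`. -/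
structure LevelFamily {W : WeilCohomology.{u, v} ops} (N : Levels W) (χ : Γ →* W.Kˣ)
    (G : Set (GVar W Γ)) {ι : Type} (X : ι → GVar W Γ) (D : ∀ i, (X i).X.Cycles) (δ : ι → ℚ) :
    Prop where
  family : OddFamily χ G X D
  pos : ∀ i, 0 < δ i
  levels : ∀ i, EigAtLeast (N.op (X i).X) (transcendental W (X i).X) (δ i)

/-- The sum of the `δ (c s)`. -/
def total {ι : Type} (δ : ι → ℚ) {n : ℕ} (c : Fin n → ι) : ℚ := ∑ s, δ (c s)

/-- For some `e < m`, with `e = n` modulo two and `t ≤ e`, a level which is at least `t` occurs in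
`H^e(X)`. -/
def LevelBelow {W : WeilCohomology.{u, v} ops} (N : Levels W) (X : 𝒱.Obj) (m n : ℕ) (t : ℚ) :
    Prop :=
  ∃ e < m, Even (n + e) ∧ t ≤ (e : ℚ) ∧ HasEig (N.op X) (W.gr X e) t

end Pool.Agent.H88.LV
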