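import Pool.Agent.H88.FL.PDefs2

/-!
# The conjectures A and of Hodge type
-/

open CategoryTheory AlgebraicGeometry

universe u v

namespace Pool.Agent.H88.LV

open Pool.Agent.H914 Pool.Agent.H914.VarClass Pool.Agent.H914.VarClass.Obj
  Pool.Agent.H914.WeilCohomology Pool.Agent.H281R3.HT

variable {k : Type u} [Field k] {𝒱 : VarClass k} {ops : CycleOps 𝒱}

/-- the conjectures A and of Hodge type -/
def StdAH (W : WeilCohomology.{u, v} ops) (P : Polarized 𝒱) : Prop :=
  LefschetzA W P.X P.D ∧ HodgeType W P.X P.D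

end Pool.Agent.H88.LV
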