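import Pool.Agent.H88.LV.Bases

/-!
# The conjecture A for the products: the induction step with levels
-/

open CategoryTheory AlgebraicGeometry Finset Function

set_option linter.unusedSectionVars false

universe u v w

namespace Pool.Agent.H88.LV

open Pool.Agent.H914 Pool.Agent.H914.VarClass Pool.Agent.H914.VarClass.Obj
  Pool.Agent.H914.WeilCohomology Pool.Agent.H281R3.HT Pool.Agent.W552 Pool.Agent.TH132.A
  Pool.Agent.TH125.Gal Pool.Agent.H88.FL

variable {k : Type u} [Field k] {𝒱 : VarClass k} {ops : CycleOps 𝒱}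
  {W : WeilCohomology.{u, v} ops} {Γ : Type w} [Group Γ] {χ : Γ →* W.Kˣ}
  {Z : Polarized 𝒱} {ι : Type} [Fintype ι] [DecidableEq ι] {P : ι → Polarized 𝒱} {n : ℕ}
  {c : Fin n → ι} {ρ : ∀ i, Γ →* (W.H (P i).X ≃ₐ[W.K] W.H (P i).X)}
  {τ : Γ →* (W.H Z.X ≃ₐ[W.K] W.H Z.X)} {g : ι → ℕ}
  {b : ∀ i, Module.Basis (Fin (g i) × Bool) W.K (transcendental W (P i).X)}
  {υ : Γ →* (W.H (VV ops Z n fun s => P (c s)) ≃ₐ[W.K] W.H (VV ops Z n fun s => P (c s)))}

/-- All equivariant traceless maps to the primitive transcendental classes in degree `e` vanish. -/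
def Van (N : Levels W) (H : ActP χ P ρ) (τ : Γ →* (W.H Z.X ≃ₐ[W.K] W.H Z.X))
    (b : ∀ i, Module.Basis (Fin (g i) × Bool) W.K (transcendental W (P i).X)) (c : Fin n → ι)
    (e : ℕ) : Prop :=
  ∀ Φ : MultilinearMap W.K (fun _ : Fin n => ∀ i, transcendental W (P i).X) (W.H Z.X),
    Eqv (Z := Z) H.ga τ Φ → TL b c Φ → LEqv N Φ → (∀ v, Φ v ∈ primTrans W Z.X Z.D e) → Φ = 0

/-- no room -/
theorem van_of_rank (N : Levels W) (S : Setting W Z P) (H : ActP χ P ρ)
    (hb : ∀ i x y, bf W P i (b i x) (b i y) = sf W.K x y) {e : ℕ}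
    (h : primRank W Z.X Z.D e < ∏ i, ((univ.filter fun s => c s = i).card + 1)) :
    Van N H τ b c e := fun _ hE hT _ hv => S.map_zero_of_small H hb hE hT hv h

/-- no large levels -/
theorem van_of_level (N : Levels W) (S : Setting W Z P) (H : ActP χ P ρ)
    (hb : ∀ i x y, bf W P i (b i x) (b i y) = sf W.K x y) {δ : ι → ℚ}
    (hbp : ∀ i a, b i (a, true) ∈ Submodule.span W.K (eig (N.opT (P i).X) ⊤ fun q => δ i ≤ q))
    {e : ℕ} (h : ¬HasEig (N.op Z.X) (W.gr Z.X e) (∑ s, δ (c s))) : Van N H τ b c e := by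
  intro Φ hE hT hN hv
  refine map_zero_of_level N S H hb hbp hE hT hN hv fun q hq x hx hqx => ?_
  by_contra h0
  exact h ⟨q, hq, x, hx.1.1, h0, hqx⟩

/-- **Equivariant maps to the lower half of the cohomology.** -/
theorem eqv_zero_low (N : Levels W) (S : Setting W Z P) (H : ActP χ P ρ)
    (hb : ∀ i x y, bf W P i (b i x) (b i y) = sf W.K x y) (hτ : GA χ Z.X τ) (hn : 0 < n)
    {f : Module.End W.K (W.H Z.X)} (tf : Low W Z.X Z.D f) (e : ℕ) : e ≤ Z.X.dim →
    ∀ {Φ : MultilinearMap W.K (fun _ : Fin n => ∀ i, transcendental W (P i).X) (W.H Z.X)},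
    Eqv (Z := Z) H.ga τ Φ → TL b c Φ → LEqv N Φ → (∀ v, Φ v ∈ W.gr Z.X e) →
    (∀ e' ≤ e, Even (e + e') → Van N H τ b c e') → Φ = 0 := by
  induction e using Nat.strong_induction_on with
  | _ e ih =>
    intro he Φ hE hT hN hgr hsm
    have h1 : ∀ v, f (Φ v) = 0 := by
      by_cases h2 : e < 2
      · exact fun v => (low_gr tf (hgr v)).2 h2
      · have h3 := ih (e - 2) (by omega) (by omega) (hE.low S.cycZ hτ tf) (hT.comp f)
          (hN.comp fun x => N.op_low S.cycZ tf x) (fun v => (low_gr tf (hgr v)).1 (e - 2) (by omega)) (fun e' he' h4 =>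
            hsm e' (by omega) (by
              have h5 : e + e' = (e - 2 + e') + 2 := by omega
              rw [h5]
              exact h4.add (by decide)))
        exact fun v => congrArg (fun φ => φ v) h3
    refine hsm e le_rfl (by exact ⟨e, rfl⟩) Φ hE hT hN fun v => ?_
    refine ⟨⟨hgr v, S.map_trans H hb hτ hE hT hn v⟩, LinearMap.mem_ker.2 ?_⟩
    have h2 := low_prim tf he (hgr v) (h1 v)
    rwa [LinearMap.pow_mulLeft] at h2

/-- **Equivariant maps.** -/
theorem eqv_zero (N : Levels W) (S : Setting W Z P) (H : ActP χ P ρ)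
    (hb : ∀ i x y, bf W P i (b i x) (b i y) = sf W.K x y) (hτ : GA χ Z.X τ) (hn : 0 < n)
    {e : ℕ} {Φ : MultilinearMap W.K (fun _ : Fin n => ∀ i, transcendental W (P i).X) (W.H Z.X)}
    (hE : Eqv (Z := Z) H.ga τ Φ) (hT : TL b c Φ) (hN : LEqv N Φ) (hgr : ∀ v, Φ v ∈ W.gr Z.X e)
    (hsm : ∀ e' ≤ e, e' + e ≤ 2 * Z.X.dim → Even (e + e') → Van N H τ b c e') : Φ = 0 := by
  obtain ⟨f, tf⟩ := TH132.A.exists_low S.cycZ S.hardZ
  by_cases h1 : e ≤ Z.X.dim
  · exact eqv_zero_low N S H hb hτ hn tf e h1 hE hT hN hgr fun e' he' => hsm e' he' (by omega)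
  by_cases h2 : e ≤ 2 * Z.X.dim
  · have h3 := eqv_zero_low N S H hb hτ hn tf (2 * Z.X.dim - e) (by omega)
      (hE.low_pow S.cycZ hτ tf (e - Z.X.dim)) (hT.comp (f ^ (e - Z.X.dim)))
      (hN.low_pow S.cycZ tf (e - Z.X.dim))
      (fun v => low_pow_gr tf (e - Z.X.dim) (by omega) (hgr v)) (fun e' he' h4 =>
        hsm e' (by omega) (by omega) (by
          obtain ⟨q, hq⟩ := h4
          exact ⟨q + (e - Z.X.dim), by omega⟩))
    apply MultilinearMap.ext
    intro v
    refine low_inj tf (m := e - Z.X.dim) ?_ (congrArg (fun φ => φ v) h3)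
    rw [show Z.X.dim + (e - Z.X.dim) = e by omega]
    exact hgr v
  · apply MultilinearMap.ext
    intro v
    have h3 := hgr v
    rw [W.gr_eq_bot Z.X e (by omega)] at h3
    exact (Submodule.mem_bot _).1 h3


/-- **Traceless classes with few forms.** -/
theorem FF_vanish (N : Levels W) (S : Setting W Z P) (H : ActP χ P ρ)
    (hb : ∀ i x y, bf W P i (b i x) (b i y) = sf W.K x y) (hτ : GA χ Z.X τ) (hn : 0 < n)
    (hυ : Cmp c ρ τ υ) (hGA : GA χ _ υ) {j : ℕ} {h : W.H (VV ops Z n fun s => P (c s))}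
    (hh : h ∈ W.gr _ (2 * j)) (hhN : N.op _ h = 0) (hfix : ∃ Δ : Subgroup Γ, Δ.FiniteIndex ∧
      ∀ γ ∈ Δ, υ γ h = (χ γ : W.K) ^ j • h)
    (htr : ∀ s t, s ≠ t → c s = c t → mv W.K (KK s t) (cd b c h) = 0)
    (hsm : ∀ e, 2 * j = e + ∑ s, (P (c s)).X.dim → ∀ e' ≤ e, e' + e ≤ 2 * Z.X.dim →
      Even (e + e') → Van N H τ b c e')
    (v : Fin n → ∀ i, transcendental W (P i).X) : FF c h v = 0 := by
  by_cases hj : ∑ s, (P (c s)).X.dim ≤ 2 * j
  · obtain ⟨e, he⟩ := Nat.exists_eq_add_of_le' hj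
    have hmem : ∀ v, FF c h v ∈ W.gr Z.X e := by
      intro v
      have h1 := S.FF_mem c hh v
      have h2 : ((2 * j : ℕ) : ℤ) - (∑ s, (P (c s)).X.dim : ℕ) = (e : ℤ) := by
        rw [he]
        push_cast
        ring
      rwa [h2, grZ_natCast] at h1
    have hE : Eqv (Z := Z) H.ga τ (FF c h) := by
      obtain ⟨Δ, hΔ, h1⟩ := hfix
      exact ⟨Δ, hΔ, fun γ hγ =>
        FF_act H.ga hυ hGA hτ (pow_ne_zero j (Units.ne_zero (χ γ))) (h1 γ hγ)⟩
    have h1 := eqv_zero N S H hb hτ hn hE (TL_FF htr) (FF_leqv N hhN) hmem (hsm e he)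
    rw [h1]
    rfl
  · have h1 := S.FF_mem c hh v
    rw [grZ_of_neg (by omega)] at h1
    exact (Submodule.mem_bot _).1 h1


/-- **Classes with few forms.** -/
theorem good_small (N : Levels W) (S : Setting W Z P) (H : ActP χ P ρ)
    (hb : ∀ i x y, bf W P i (b i x) (b i y) = sf W.K x y) (hτ : GA χ Z.X τ) (hn : 0 < n)
    (hυ : Cmp c ρ τ υ) (hGA : GA χ _ υ)
    {F : Module.End W.K (W.H (VV ops Z n fun s => P (c s)))}
    (tF : Low W (VV ops Z n fun s => P (c s)) (mixProd ops Z n fun s => P (c s)).D F)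
    (h1 : (1 : W.H (VV ops Z n fun s => P (c s))) ≠ 0)
    (ih : ∀ m < n, ∀ c' : Fin m → ι, LA W Z P c')
    {j : ℕ} {h : W.H (VV ops Z n fun s => P (c s))} (hh : h ∈ algClasses W _ j)
    (hsm : ∀ e, 2 * j = e + ∑ s, (P (c s)).X.dim → ∀ e' ≤ e, e' + e ≤ 2 * Z.X.dim →
      Even (e + e') → Van N H τ b c e') :
    Good W (LL W Z P c) F h := by
  obtain ⟨I, _, T, r, hT, htr⟩ := S.exists_traceless.{u, v, w} hb (c := c) h1
  set A : Module.End W.K (W.H (VV ops Z n fun s => P (c s))) := ∑ p, T p with hAdef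
  have hAG : ∀ x, AS W _ x → Good W (LL W Z P c) F (A x) := by
    intro x hx
    rw [hAdef, LinearMap.sum_apply]
    exact Good.ratSub.sum _ fun p _ => (hT p).good S tF ih hx
  have hAgr : ∀ l, ∀ x ∈ W.gr _ l, A x ∈ W.gr _ l := by
    intro l x hx
    rw [hAdef, LinearMap.sum_apply]
    exact Submodule.sum_mem _ fun p _ => (hT p).gr hx
  have hpA : ∀ x, AS W _ x → AS W _ (pe r A x) :=
    pe_pres AS.zero (fun x y hx hy => hx.add hy) (fun q x hx => hx.smul q)
      fun x hx => (hAG x hx).as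
  have hpgr : ∀ x ∈ W.gr _ (2 * j), pe r A x ∈ W.gr _ (2 * j) :=
    pe_pres (Submodule.zero_mem _) (fun x y hx hy => Submodule.add_mem _ hx hy)
      (fun q x hx => Submodule.smul_mem _ _ hx) fun x hx => hAgr _ x hx
  have hcomm : pe r A (A h) = A (pe r A h) := (pe_commutes (U := A) (fun x => rfl) h).symm
  have hG : Good W (LL W Z P c) F (pe r A (A h)) := by
    rw [hcomm]
    exact hAG _ (hpA _ (AS.of hh))
  set h' := h - pe r A (A h) with hh'
  have hA' : AS W _ h' := AS.ratSub.sub (AS.of hh) hG.as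
  have hgr' : h' ∈ W.gr _ (2 * j) :=
    Submodule.sub_mem _ (alg_gr hh) (hpgr _ (hAgr _ _ (alg_gr hh)))
  have h2 : Good W (LL W Z P c) F h' := S.good_of_FF c tF h1 ih hA' <|
    FF_vanish N S H hb hτ hn hυ hGA hgr' (N.op_AS hA') (hGA.cl_fix j h' (hA'.alg hgr'))
      (fun s t hst hct => htr s t hst hct h) hsm
  have h3 : h = h' + pe r A (A h) := by rw [hh']; abel
  rw [h3]
  exact h2.add hG

/-- **The induction step.** -/
theorem stepA (N : Levels W) (S : Setting W Z P) (H : ActP χ P ρ)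
    (hb : ∀ i x y, bf W P i (b i x) (b i y) = sf W.K x y) (hτ : GA χ Z.X τ) (hn : 0 < n)
    (hυ : Cmp c ρ τ υ) (hGA : GA χ _ υ)
    (h1 : (1 : W.H (VV ops Z n fun s => P (c s))) ≠ 0)
    (ih : ∀ m < n, ∀ c' : Fin m → ι, LA W Z P c')
    (hsm : ∀ e < Z.X.dim, Even (n + e) → Van N H τ b c e) : LA W Z P c := by
  obtain ⟨F, tF⟩ := S.exists_low c
  have hdim : (VV ops Z n fun s => P (c s)).dim = ∑ s, (P (c s)).X.dim + Z.X.dim := dim_VV
  have hev := S.even_sum c
  have key : ∀ j, 2 * j ≠ (VV ops Z n fun s => P (c s)).dim → ∀ h ∈ algClasses W _ j,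
      Good W (LL W Z P c) F h := by
    intro j hj h hh
    refine good_small N S H hb hτ hn hυ hGA tF h1 ih hh fun e he e' he' h2 h3 =>
      hsm e' (by omega) ?_
    rw [Nat.even_iff] at hev h3 ⊢
    omega
  refine lefschetzA_of_stable (S.cycV c) tF fun x hx => ?_
  refine AS.ind (p := fun x => AS W _ (F x)) ?_
    (fun x y hx hy => by rw [map_add]; exact hx.add hy) hx
  intro j x hx
  by_cases hj : 2 * j = (VV ops Z n fun s => P (c s)).dim
  swap
  · exact (key j hj x hx).mF.as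
  -- the middle degree
  have hLx : LL W Z P c x ∈ algClasses W _ (1 + j) := by
    rw [LinearMap.mulLeft_apply]
    exact alg_mul ⟨_, S.cycV c, rfl⟩ hx
  have hG := key (1 + j) (by omega) _ hLx
  have hwx : wt (W.isInternal (VV ops Z n fun s => P (c s)))
      (VV ops Z n fun s => P (c s)).dim x = 0 := by
    rw [wt, scal_apply _ _ (alg_gr hx), node, hj]
    simp
  have he : ∀ y (a : W.K), wt (W.isInternal (VV ops Z n fun s => P (c s)))
      (VV ops Z n fun s => P (c s)).dim y = a • y →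
      wt (W.isInternal (VV ops Z n fun s => P (c s))) (VV ops Z n fun s => P (c s)).dim
        (LL W Z P c y) = (a + 2) • LL W Z P c y := by
    intro y a hy
    have h2 := congrArg (fun u => u y) tF.he
    simp only [LinearMap.sub_apply, Module.End.mul_apply, two_end, hy, map_smul] at h2
    rw [sub_eq_iff_eq_add] at h2
    rw [h2, add_smul, two_smul]
    abel
  have hf : ∀ y (a : W.K), wt (W.isInternal (VV ops Z n fun s => P (c s)))
      (VV ops Z n fun s => P (c s)).dim y = a • y →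
      wt (W.isInternal (VV ops Z n fun s => P (c s))) (VV ops Z n fun s => P (c s)).dim
        (F y) = (a - 2) • F y := by
    intro y a hy
    have h2 := congrArg (fun u => u y) tF.hf
    simp only [LinearMap.sub_apply, Module.End.mul_apply, LinearMap.neg_apply, two_end, hy,
      map_smul] at h2
    rw [sub_eq_iff_eq_add] at h2
    rw [h2, sub_smul, two_smul]
    abel
  obtain ⟨z, ⟨hz1, hz2⟩, hz3⟩ := exists_preimage' tF (P := fun δ y => Good W (LL W Z P c) F y ∧
      wt (W.isInternal (VV ops Z n fun s => P (c s))) (VV ops Z n fun s => P (c s)).dim y =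
        (δ : W.K) • y) (fun d => ⟨Good.zero, by rw [map_zero, smul_zero]⟩)
    (fun hx hy => ⟨hx.1.add hy.1, by rw [map_add, hx.2, hy.2, smul_add]⟩)
    (fun q d x hx => ⟨hx.1.smul q, by rw [map_smul, hx.2, smul_comm]⟩)
    (fun {d x} hx => ⟨hx.1.mL, by
      have := he x _ hx.2
      rw [this]
      push_cast
      rfl⟩)
    (fun {d x} hx => ⟨hx.1.mF, by
      have := hf x _ hx.2
      rw [this]
      push_cast
      rfl⟩) (fun hx => hx.2) 2 (y := LL W Z P c x) ⟨hG, by
      have := he x 0 (by rw [hwx, zero_smul])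
      rw [this]
      push_cast
      rw [zero_add]⟩
  set L := LL W Z P c with hL
  have h2 : F (x - L z) = 0 := by
    refine Sl2.f_eq_zero tF (M := 0) ?_ ?_
    · have h3 := he z _ hz2
      rw [map_sub, hwx]
      change 0 - wt (W.isInternal (VV ops Z n fun s => P (c s)))
        (VV ops Z n fun s => P (c s)).dim (L z) = _
      rw [h3]
      push_cast
      simp
    · rw [zero_add, pow_one, map_sub]
      change L x - L (L z) = 0
      rw [← hz3, pow_two]
      exact sub_self _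
  rw [map_sub, sub_eq_zero] at h2
  rw [h2]
  exact hz1.mL.mF.as

end Pool.Agent.H88.LV
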