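import Pool.Agent.H88.LV.StepA
import Pool.Agent.H88.FL.ThmA

/-!
# The conjecture A for all products: levels
-/

open CategoryTheory AlgebraicGeometry Finset Function

set_option linter.unusedSectionVars false

universe u v w

namespace Pool.Agent.H88.LV

open Pool.Agent.H914 Pool.Agent.H914.VarClass Pool.Agent.H914.VarClass.Obj
  Pool.Agent.H914.WeilCohomology Pool.Agent.H281R3.HT Pool.Agent.W552 Pool.Agent.TH132.A
  Pool.Agent.TH125.Gal Pool.Agent.H88.FL

variable {k : Type u} [Field k] {𝒱 : VarClass k} {ops : CycleOps 𝒱}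
  {W : WeilCohomology.{u, v} ops} {Γ : Type w} [Group Γ] {χ : Γ →* W.Kˣ} {G : Set (GVar W Γ)}
  {ι : Type} {X : ι → GVar W Γ} {D : ∀ i, (X i).X.Cycles} {Z : GVar W Γ} {E : Z.X.Cycles}

/-- The case of finitely many varieties. -/
theorem finite_case [Fintype ι] [DecidableEq ι] (N : Levels W) (h : OddFamily χ G X D)
    {δ : ι → ℚ} (hδ : ∀ i, 0 < δ i) (hlev : ∀ i, EigAtLeast (N.op (X i).X) (transcendental W (X i).X) (δ i))
    (hZ : Z ∈ G)
    (hE : Z.X.IsCyc 1 E) (hH : HardLefschetz W Z.X E) (hLZ : LefschetzA W Z.X E)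
    (hs : ∀ n, 0 < n → ∀ c : Fin n → ι, LevelBelow N Z.X Z.X.dim n (total δ c) →
      LA W ⟨Z.X, E⟩ (gp X D) c) (n : ℕ) :
    ∀ c : Fin n → ι, LA W ⟨Z.X, E⟩ (gp X D) c := by
  induction n using Nat.strong_induction_on with
  | _ n ih =>
    intro c
    rcases Nat.eq_zero_or_pos n with rfl | hn
    · exact hLZ
    by_cases h1 : (1 : W.H (VV ops ⟨Z.X, E⟩ n fun s => gp X D (c s))) = 0
    · exact lefschetzA_of_zero h1 _
    by_cases h2 : LevelBelow N Z.X Z.X.dim n (total δ c)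
    · exact hs n hn c h2
    obtain ⟨υ, hυ, hc⟩ := exists_act (E := E) (D := D) h.galoisClass h.mem hZ c
    obtain ⟨g, b, hb, hbp⟩ := exists_bases N (h.setting hE hH) hδ hlev
    refine stepA N (h.setting hE hH) h.actP hb (h.galoisClass.galois _ hZ) hn hc
      (h.galoisClass.galois _ hυ) h1 ih fun e he hev => ?_
    exact van_of_level N (h.setting hE hH) h.actP hb hbp fun h4 =>
      h2 ⟨e, he, hev, N.hasEig_le h4, h4⟩

/-- **The level theorem for the conjecture A.** -/
theorem lefschetzA_iff (N : Levels W) (h : OddFamily χ G X D)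
    {δ : ι → ℚ} (hδ : ∀ i, 0 < δ i) (hlev : ∀ i, EigAtLeast (N.op (X i).X) (transcendental W (X i).X) (δ i))
    (hZ : Z ∈ G)
    (hE : Z.X.IsCyc 1 E) (hH : HardLefschetz W Z.X E) :
    (∀ (n : ℕ) (c : Fin n → ι), LefschetzA W (mixed X D Z E c).X (mixed X D Z E c).D) ↔
    LefschetzA W Z.X E ∧ ∀ (n : ℕ) (c : Fin n → ι), 0 < n →
      LevelBelow N Z.X Z.X.dim n (total δ c) →
        LefschetzA W (mixed X D Z E c).X (mixed X D Z E c).D := by
  classical
  constructor
  · intro h1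
    exact ⟨h1 0 Fin.elim0, fun n c _ _ => h1 n c⟩
  rintro ⟨hLZ, hs⟩ n c
  have hc : ∀ s, c s ∈ univ.image c := fun s => mem_image_of_mem c (mem_univ s)
  have h1 := finite_case N (h.comp (fun i : (univ.image c : Finset ι) => (i : ι))
    Subtype.val_injective) (δ := fun i => δ i) (fun i => hδ i) (fun i => hlev i) hZ hE hH
    hLZ (fun m hm c' hc' => hs m (fun s => (c' s : ι)) hm hc') n fun s => ⟨c s, hc s⟩
  exact h1

end Pool.Agent.H88.LV
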