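import Pool.Agent.H88.LV.Basic

/-!
# Equivariant maps and levels
-/

open CategoryTheory AlgebraicGeometry Finset Function

set_option linter.unusedSectionVars false

universe u v w

namespace Pool.Agent.H88.LV

open Pool.Agent.H914 Pool.Agent.H914.VarClass Pool.Agent.H914.VarClass.Obj
  Pool.Agent.H914.WeilCohomology Pool.Agent.H281R3.HT Pool.Agent.W552 Pool.Agent.TH132.A
  Pool.Agent.TH125.Gal Pool.Agent.H88.FL

/-- multilinear maps on spans -/
theorem multilinear_zero {K : Type*} [Field K] {S : Type*} [Fintype S] [DecidableEq S]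
    {M M' : Type*} [AddCommGroup M] [Module K M] [AddCommGroup M'] [Module K M']
    (Φ : MultilinearMap K (fun _ : S => M) M') (E : S → Set M)
    (h : ∀ v, (∀ s, v s ∈ E s) → Φ v = 0) (T : Finset S) :
    ∀ v, (∀ s ∈ T, v s ∈ Submodule.span K (E s)) → (∀ s, s ∉ T → v s ∈ E s) → Φ v = 0 := by
  induction T using Finset.induction_on with
  | empty => exact fun v _ h2 => h v fun s => h2 s (Finset.notMem_empty s)
  | insert a T ha ih =>
    intro v h1 h2
    have key : ∀ x ∈ Submodule.span K (E a), Φ (update v a x) = 0 := by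
      intro x hx
      induction hx using Submodule.span_induction with
      | mem x hx =>
        refine ih _ (fun s hs => ?_) fun s hs => ?_
        · rw [update_of_ne (by rintro rfl; exact ha hs)]
          exact h1 s (Finset.mem_insert_of_mem hs)
        · by_cases hsa : s = a
          · subst hsa
            rw [update_self]
            exact hx
          · rw [update_of_ne hsa]
            exact h2 s (by simp [hsa, hs])
      | zero => exact Φ.map_coord_zero a (update_self _ _ _)
      | add x y _ _ hx hy => rw [MultilinearMap.map_update_add, hx, hy, add_zero]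
      | smul c x _ hx => rw [MultilinearMap.map_update_smul, hx, smul_zero]
    have h3 := key (v a) (h1 a (Finset.mem_insert_self _ _))
    rwa [update_eq_self] at h3

variable {k : Type u} [Field k] {𝒱 : VarClass k} {ops : CycleOps 𝒱}
  {W : WeilCohomology.{u, v} ops} {Γ : Type w} [Group Γ] {χ : Γ →* W.Kˣ}
  {Z : Polarized 𝒱} {ι : Type} [Fintype ι] [DecidableEq ι] {P : ι → Polarized 𝒱} {n : ℕ}
  {c : Fin n → ι} {ρ : ∀ i, Γ →* (W.H (P i).X ≃ₐ[W.K] W.H (P i).X)}
  {τ : Γ →* (W.H Z.X ≃ₐ[W.K] W.H Z.X)} {g : ι → ℕ}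
  {b : ∀ i, Module.Basis (Fin (g i) × Bool) W.K (transcendental W (P i).X)}

/-- **Nonzero stable spaces of traceless forms are nonzero on the positive configurations.** -/
theorem forms_pos (S : Setting W Z P) (H : ActP χ P ρ)
    (hb : ∀ i x y, bf W P i (b i x) (b i y) = sf W.K x y)
    {R : Submodule W.K (MultilinearMap W.K (fun _ : Fin n => ∀ i, transcendental W (P i).X) W.K)}
    (hfam : Fam (rhoP fun i => rhoT (H.ga i)) R)
    (hTL : ∀ φ ∈ R, TL b c φ) {φ} (hφ : φ ∈ R) (h0 : φ ≠ 0) :
    ∃ ψ ∈ R, ∃ a : ∀ s, Fin (g (c s)), ψ (fun s => bh b (pl (c s) (a s))) ≠ 0 := by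
  have hL : ∀ i u v, ∀ φ ∈ R, der (emb i (ss (bf W P i) u v)) φ ∈ R := by
    intro i u v φ hφ
    obtain ⟨γ, ⟨δ, hδ, hδ0, a, ha, hγ⟩, hγ'⟩ := H.node i
    refine emb_ss_mem (S := Fin n) (fun i => rhoT (H.ga i)) i (S.bf_skew i) (S.bf_nondeg i)
      (μ := fun g => (χ g : W.K) ^ (P i).X.dim) (fun g => pow_ne_zero _ (Units.ne_zero _))
      (fun g x y => ?_) (SI_rhoT (H.ga i) (H.irr i)) (γ := γ) (δ := ⟨δ, hδ⟩) (fun h0 => ?_) ha
      (fun x => ?_) (fun l hl => ?_) u v _ hfam φ hφ
    · rw [FL.bf_apply, FL.bf_apply, rhoT_apply, rhoT_apply, ← map_mul, (H.ga i).tr_act]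
    · exact hδ0 (congrArg Subtype.val h0)
    · apply Subtype.ext
      rw [rhoT_apply, hγ x x.2]
      rfl
    · apply LinearMap.ext
      intro x
      apply Subtype.ext
      rw [rhoT_apply]
      exact hγ' l hl x
  have hrep := isRep_kap (B := bf W P) hb (c := c) hL (fun φ hφ => (hTL φ hφ).supp)
    (fun φ hφ => (hTL φ hφ).tr)
  have hk0 : kap b φ ≠ 0 := by
    intro h
    apply h0
    refine Module.Basis.ext_multilinear (fun _ => Pi.basis b) fun r => ?_
    rw [_root_.zero_apply]
    have h3 := congrFun h r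
    rw [kap_apply] at h3
    rw [← show (0 : (Fin n → J g) → W.K) r = 0 from rfl, ← h3]
    congr 1
    funext s
    rw [Pi.basis_apply]
    rfl
  obtain ⟨w, ⟨ψ, hψ, rfl⟩, hw0, hpos⟩ := hrep.exists_pos (∑ _i : ι, Fintype.card (Fin n))
    (kap b φ) ⟨φ, hφ, rfl⟩ hk0 fun r _ => Finset.sum_le_sum fun i _ => neg_le r i
  obtain ⟨r, hr⟩ := Function.ne_iff.1 hw0
  rw [Pi.zero_apply] at hr
  have h1 := hpos r hr
  have h2 : ∀ s, (r s).1 = c s := by
    intro s
    by_contra hne
    exact hr (hrep.supp _ ⟨ψ, hψ, rfl⟩ r ⟨s, hne⟩)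
  have h3 : ∀ s, ∃ a : Fin (g (c s)), r s = pl (c s) a := by
    intro s
    refine eq_pl (h2 s) ?_
    have h4 := congrFun (pos_eq h1) s
    rw [← h4]
    rfl
  choose a ha using h3
  refine ⟨ψ, hψ, a, ?_⟩
  rw [kap_apply] at hr
  have h4 : (fun s => bh b (r s)) = fun s => bh b (pl (c s) (a s)) := by
    funext s
    rw [ha]
  rwa [h4] at hr

/-- **An equivariant map to a space without large levels vanishes.** -/
theorem map_zero_of_level (N : Levels W) (S : Setting W Z P) (H : ActP χ P ρ)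
    (hb : ∀ i x y, bf W P i (b i x) (b i y) = sf W.K x y) {δ : ι → ℚ}
    (hbp : ∀ i a, b i (a, true) ∈ Submodule.span W.K (eig (N.opT (P i).X) ⊤ fun q => δ i ≤ q))
    {Φ : MultilinearMap W.K (fun _ : Fin n => ∀ i, transcendental W (P i).X) (W.H Z.X)}
    (hE : Eqv (Z := Z) H.ga τ Φ) (hT : TL b c Φ) (hN : LEqv N Φ) {U : Submodule W.K (W.H Z.X)}
    (hΦ : ∀ v, Φ v ∈ U)
    (hlev : ∀ q : ℚ, ∑ s, δ (c s) ≤ q → ∀ x ∈ U, N.op Z.X x = (q : W.K) • x → x = 0) :
    Φ = 0 := by
  by_contra hne
  obtain ⟨v0, hv0⟩ : ∃ v, Φ v ≠ 0 := by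
    by_contra hcon
    push Not at hcon
    exact hne (MultilinearMap.ext hcon)
  let Λ : Module.Dual W.K (W.H Z.X) →ₗ[W.K]
      MultilinearMap W.K (fun _ : Fin n => ∀ i, transcendental W (P i).X) W.K :=
    { toFun := fun l => l.compMultilinearMap Φ
      map_add' := fun _ _ => rfl
      map_smul' := fun _ _ => rfl }
  have hΛ : ∀ l v, Λ l v = l (Φ v) := fun _ _ => rfl
  have hfam : Fam (rhoP fun i => rhoT (H.ga i)) (LinearMap.range Λ) := by
    obtain ⟨Δ', hΔ', h1⟩ := hE
    refine ⟨Δ', hΔ', fun γ hγ φ hφ => ?_⟩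
    obtain ⟨l, rfl⟩ := hφ
    obtain ⟨m, hm⟩ := h1 γ hγ
    refine ⟨m • (l ∘ₗ (τ γ).toLinearMap), ?_⟩
    apply MultilinearMap.ext
    intro v
    rw [MultilinearMap.compLinearMap_apply, hΛ, hΛ, hm, map_smul, LinearMap.smul_apply]
    rfl
  obtain ⟨l0, hl0⟩ : ∃ l : Module.Dual W.K (W.H Z.X), l (Φ v0) ≠ 0 := by
    by_contra hcon
    push Not at hcon
    exact hv0 ((Module.forall_dual_apply_eq_zero_iff W.K _).1 hcon)
  obtain ⟨ψ, ⟨l, rfl⟩, a, ha⟩ := forms_pos S H hb (c := c) hfam (by
    rintro _ ⟨l, rfl⟩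
    exact hT.comp l) (φ := Λ l0) ⟨l0, rfl⟩ (fun h => hl0 (by rw [← hΛ, h]; rfl))
  rw [hΛ] at ha
  apply ha
  have h1 : Φ (fun s => bh b (pl (c s) (a s))) = 0 := by
    refine multilinear_zero Φ (fun s => (fun y => Pi.single (c s) y) ''
      (eig (N.opT (P (c s)).X) ⊤ fun q => δ (c s) ≤ q)) ?_ Finset.univ _ ?_
      fun s hs => absurd (Finset.mem_univ s) hs
    · intro v hv
      choose y hy hyv using hv
      choose _ q hq hq' using hy
      have h2 := hN v
      have h3 : ∀ s, Φ (update v s fun i => N.opT (P i).X (v s i)) = (q s : W.K) • Φ v := by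
        intro s
        have h4 : (fun i => N.opT (P i).X (v s i)) = (q s : W.K) • v s := by
          rw [← hyv s]
          funext i
          by_cases hi : i = c s
          · subst hi
            change N.opT (P (c s)).X ((Pi.single (c s) (y s) :
              ∀ i, transcendental W (P i).X) (c s)) = _
            rw [Pi.single_eq_same, hq' s, Pi.smul_apply]
            change _ = (q s : W.K) • ((Pi.single (c s) (y s) :
              ∀ i, transcendental W (P i).X) (c s))
            rw [Pi.single_eq_same]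
          · rw [Pi.smul_apply]
            change N.opT (P i).X ((Pi.single (c s) (y s) :
              ∀ i, transcendental W (P i).X) i) = (q s : W.K) • ((Pi.single (c s) (y s) :
              ∀ i, transcendental W (P i).X) i)
            rw [Pi.single_eq_of_ne hi, map_zero, smul_zero]
        rw [h4, MultilinearMap.map_update_smul, update_eq_self]
      rw [Finset.sum_congr rfl fun s _ => h3 s, ← Finset.sum_smul] at h2
      refine hlev (∑ s, q s) (Finset.sum_le_sum fun s _ => hq s) _ (hΦ v) ?_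
      rw [h2]
      push_cast
      rfl
    · intro s _
      have h2 := hbp (c s) (a s)
      have h3 := Submodule.mem_map_of_mem (f := LinearMap.single W.K
        (fun i => transcendental W (P i).X) (c s)) h2
      rw [Submodule.map_span] at h3
      exact h3
  rw [h1, map_zero]

end Pool.Agent.H88.LV
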